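import Pool.Agent.H12.UCR.Stmts

/-!
# Board `ucr`, row CPT
-/

set_option autoImplicit false

open MeasureTheory Filter Topology

namespace Pool.UCR

theorem cpt_cont (p : ℕ) : Continuous (fun x : UnitAddCircle => p • x) := continuous_const_smul p

theorem cpt_closed (p : ℕ) : IsClosed {μ : ProbabilityMeasure UnitAddCircle |
    (μ : Measure UnitAddCircle).map (fun x : UnitAddCircle => p • x) = (μ : Measure UnitAddCircle)} := by
  have h1 : {μ : ProbabilityMeasure UnitAddCircle |
      (μ : Measure UnitAddCircle).map (fun x : UnitAddCircle => p • x) =
        (μ : Measure UnitAddCircle)} =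
      {μ : ProbabilityMeasure UnitAddCircle |
        μ.map (cpt_cont p).measurable.aemeasurable = μ} := by
    ext μ
    constructor
    · intro h
      apply ProbabilityMeasure.toMeasure_injective
      rw [ProbabilityMeasure.toMeasure_map]
      exact h
    · intro h
      have h2 := congrArg (fun ν : ProbabilityMeasure UnitAddCircle =>
        (ν : Measure UnitAddCircle)) h
      simp only [ProbabilityMeasure.toMeasure_map] at h2
      exact h2
  rw [h1]
  exact isClosed_eq (ProbabilityMeasure.continuous_map (cpt_cont p)) continuous_id

theorem cpt_thm : CPTS := by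
  intro p
  have hc : CompactSpace (PP p) := isCompact_iff_compactSpace.mp (cpt_closed p).isCompact
  have ht : T2Space (PP p) := inferInstance
  exact ⟨hc, ht, inferInstance⟩

end Pool.UCR
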